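import Pool.Agent.H52.XR2.S1
import Pool.Agent.H7.XR.A1

/-!
# XR2, LD1: one-sided accumulation of common boundary points
-/

set_option autoImplicit false

open MeasureTheory Set Filter Topology Metric Asymptotics
open scoped Real ENNReal RealInnerProductSpace

namespace Pool.XR2

open Pool.Agent.H45.XR

/-- The gauge on a tangent line of the unit circle is convex. -/
theorem ld1_gauge_line {C : Set ℂ} (hC : Body C) (θ : ℝ) :
    ConvexOn ℝ univ fun u : ℝ => gauge C (e θ + u * (Complex.I * e θ)) := by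
  refine ⟨convex_univ, fun u _ v _ a b ha hb hab => ?_⟩
  have e1 : e θ + ((a • u + b • v : ℝ) : ℂ) * (Complex.I * e θ) =
      a • (e θ + u * (Complex.I * e θ)) + b • (e θ + v * (Complex.I * e θ)) := by
    have h1 : (a : ℂ) + b = 1 := by exact_mod_cast hab
    simp only [smul_eq_mul, Complex.real_smul]
    push_cast
    linear_combination -(e θ) * h1
  show gauge C (e θ + ((a • u + b • v : ℝ) : ℂ) * (Complex.I * e θ)) ≤ _
  rw [e1]
  refine (gauge_add_le hC.conv (absorbent_nhds_zero hC.nhds) _ _).trans ?_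
  rw [gauge_smul_of_nonneg ha, gauge_smul_of_nonneg hb]

/-- The radial function near `z`. -/
theorem rad_near (C : Set ℂ) (z x : ℝ) (h1 : z - π / 2 < x) (h2 : x < z + π / 2) :
    rad C x = (Real.cos (x - z) *
      gauge C (e z + (Real.tan (x - z) : ℝ) * (Complex.I * e z)))⁻¹ := by
  have hc : 0 < Real.cos (x - z) := Real.cos_pos_of_mem_Ioo ⟨by linarith, by linarith⟩
  have e1 : e x = Real.cos (x - z) • (e z + (Real.tan (x - z) : ℝ) * (Complex.I * e z)) := by
    have h3 : e x = e z * e (x - z) := by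
      rw [← e_add]
      congr 1
      ring
    have h4 : e (x - z) = Real.cos (x - z) + Real.sin (x - z) * Complex.I := by
      unfold e
      rw [Complex.exp_mul_I, Complex.ofReal_cos, Complex.ofReal_sin]
    have h5 : ((Real.cos (x - z) : ℝ) : ℂ) * ((Real.tan (x - z) : ℝ) : ℂ) = Real.sin (x - z) := by
      rw [← Complex.ofReal_mul, mul_comm, Real.tan_mul_cos hc.ne']
    rw [h3, h4, Complex.real_smul]
    linear_combination -(Complex.I * e z) * h5
  unfold rad
  rw [e1, gauge_smul_of_nonneg hc.le, smul_eq_mul]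

/-- One-sided derivatives of the radial function. -/
theorem rad_side {C : Set ℂ} (hC : Body C) (z : ℝ) (S S₀ : Set ℝ)
    (hd : ∃ d, HasDerivWithinAt (fun u : ℝ => gauge C (e z + u * (Complex.I * e z))) d S 0)
    (hm : MapsTo (fun x => Real.tan (x - z)) S₀ S) (h0 : S₀ ⊆ Ioo (z - π / 2) (z + π / 2)) :
    ∃ d', HasDerivWithinAt (rad C) d' S₀ z := by
  obtain ⟨d, hd⟩ := hd
  have hpi := Real.pi_pos
  have ht : HasDerivAt (fun x => Real.tan (x - z)) (1 / Real.cos (z - z) ^ 2 * 1) z := by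
    have h1 : HasDerivAt (fun x : ℝ => x - z) 1 z := (hasDerivAt_id z).sub_const z
    exact (Real.hasDerivAt_tan (by rw [sub_self, Real.cos_zero]; exact one_ne_zero)).comp z h1
  have hc : HasDerivAt (fun x => Real.cos (x - z)) (-Real.sin (z - z) * 1) z := by
    have h1 : HasDerivAt (fun x : ℝ => x - z) 1 z := (hasDerivAt_id z).sub_const z
    exact (Real.hasDerivAt_cos _).comp z h1
  have h2 : HasDerivWithinAt ((fun u : ℝ => gauge C (e z + u * (Complex.I * e z))) ∘
      fun x => Real.tan (x - z)) (d * (1 / Real.cos (z - z) ^ 2 * 1)) S₀ z :=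
    HasDerivWithinAt.comp z (by rw [sub_self, Real.tan_zero]; exact hd) ht.hasDerivWithinAt hm
  have h3 := hc.hasDerivWithinAt (s := S₀) |>.mul h2
  have hne : ((fun x => Real.cos (x - z)) * ((fun u : ℝ => gauge C (e z + u *
      (Complex.I * e z))) ∘ fun x => Real.tan (x - z))) z ≠ 0 := by
    show Real.cos (z - z) * gauge C (e z + (Real.tan (z - z) : ℝ) * (Complex.I * e z)) ≠ 0
    rw [sub_self, Real.cos_zero, Real.tan_zero, Complex.ofReal_zero, zero_mul, add_zero, one_mul]
    exact (gauge_e_pos hC z).ne'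
  have h4 := h3.inv hne
  refine ⟨_, h4.congr (fun x hx => ?_) ?_⟩
  · exact rad_near C z x (h0 hx).1 (h0 hx).2
  · exact rad_near C z z (by linarith) (by linarith)

theorem rad_right {C : Set ℂ} (hC : Body C) (z : ℝ) :
    ∃ d, HasDerivWithinAt (rad C) d (Ioi z) z := by
  have hpi := Real.pi_pos
  obtain ⟨d, hd⟩ := rad_side hC z (Ioi 0) (Ioo z (z + π / 2))
    ⟨_, (ld1_gauge_line hC z).hasDerivWithinAt_rightDeriv_of_mem_interior (by simp)⟩
    (fun x hx => Real.tan_pos_of_pos_of_lt_pi_div_two (by linarith [hx.1]) (by linarith [hx.2]))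
    (fun x hx => ⟨by linarith [hx.1], hx.2⟩)
  exact ⟨d, hd.mono_of_mem_nhdsWithin (Ioo_mem_nhdsGT (by linarith))⟩

theorem rad_left {C : Set ℂ} (hC : Body C) (z : ℝ) :
    ∃ d, HasDerivWithinAt (rad C) d (Iio z) z := by
  have hpi := Real.pi_pos
  obtain ⟨d, hd⟩ := rad_side hC z (Iio 0) (Ioo (z - π / 2) z)
    ⟨_, (ld1_gauge_line hC z).hasDerivWithinAt_leftDeriv_of_mem_interior (by simp)⟩
    (fun x hx => Real.tan_neg_of_neg_of_pi_div_two_lt (by linarith [hx.2]) (by linarith [hx.1]))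
    (fun x hx => ⟨hx.1, by linarith [hx.2]⟩)
  exact ⟨d, hd.mono_of_mem_nhdsWithin (Ioo_mem_nhdsLT (by linarith))⟩

/-- A function with accumulating zeros and a one-sided derivative. -/
theorem o_of_acc {q : ℝ → ℝ} {z d : ℝ} {S : Set ℝ} (hz : q z = 0) (hS : z ∉ S)
    (hd : HasDerivWithinAt q d S z) (hf : ∃ᶠ y in 𝓝[S] z, q y = 0) :
    q =o[𝓝[S] z] (fun x => x - z) := by
  have hd0 : d = 0 := by
    by_contra hne
    have h1 := (hasDerivWithinAt_iff_tendsto_slope' hS).1 hd
    have h2 := h1.eventually_ne hne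
    refine hf ?_
    filter_upwards [h2] with y hy hq
    refine hy ?_
    rw [slope_def_field, hq, hz, sub_zero, zero_div]
  rw [hd0, hasDerivWithinAt_iff_isLittleO] at hd
  refine hd.congr (fun x => ?_) fun x => rfl
  rw [hz, smul_zero, sub_zero, sub_zero]

theorem t_ld1 : LD1Stmt := by
  intro C C' z hC hC' hz
  have hq0 : rad C' z - rad C z = 0 := by
    have h1 : rad C z = rad C' z := hz
    rw [h1, sub_self]
  have hE : ∀ y ∈ EE C C', rad C' y - rad C y = 0 := fun y hy => by
    have h1 : rad C y = rad C' y := hy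
    rw [h1, sub_self]
  constructor
  · intro hA
    obtain ⟨d, hd⟩ := rad_right hC z
    obtain ⟨d', hd'⟩ := rad_right hC' z
    refine o_of_acc hq0 (by simp) (hd'.sub hd) ?_
    rw [frequently_iff]
    intro U hU
    obtain ⟨u, hu, hsub⟩ := mem_nhdsGT_iff_exists_Ioo_subset.1 hU
    obtain ⟨y, hy, h1, h2⟩ := hA (u - z) (by linarith [mem_Ioi.1 hu])
    exact ⟨y, hsub ⟨h1, by linarith⟩, hE y hy⟩
  · intro hA
    obtain ⟨d, hd⟩ := rad_left hC z
    obtain ⟨d', hd'⟩ := rad_left hC' z
    refine o_of_acc hq0 (by simp) (hd'.sub hd) ?_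
    rw [frequently_iff]
    intro U hU
    obtain ⟨u, hu, hsub⟩ := mem_nhdsLT_iff_exists_Ioo_subset.1 hU
    obtain ⟨y, hy, h1, h2⟩ := hA (z - u) (by linarith [mem_Iio.1 hu])
    exact ⟨y, hsub ⟨by linarith, h2⟩, hE y hy⟩

end Pool.XR2
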